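import Mathlib.LinearAlgebra.Eigenspace.Triangularizable
import Mathlib.LinearAlgebra.Eigenspace.Charpoly
import Mathlib.LinearAlgebra.Matrix.Charpoly.Eigs
import Mathlib.LinearAlgebra.Determinant

/-!
# MP_640417_ag, Wn, module DetE (80 lines): the determinant on the range of an idempotent

`range e` is stable under `A`; let `A'` be the restriction. `det (e * A + (1 - e)) = det A'` (copy the private lemma `det_top` of
`Dfr/Top.lean`). `R = A'.charpoly.roots`: the characteristic polynomial splits (`IsAlgClosed.splits`), so `card R = natDegree = finrank`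
(`LinearMap.charpoly_natDegree`, `splits_iff_card_roots`), `R.prod = det A'` (`LinearMap.det_eq_sign_charpoly_coeff` and the product of the roots, or
`Matrix.det_eq_prod_roots_charpoly` for the matrix in a basis). Each root `z` is an eigenvalue of `A'` (`Module.End.hasEigenvalue_iff_isRoot_charpoly`),
and an eigenvector of `A'` is an eigenvector of `A`.
-/

set_option autoImplicit false

namespace Pool.Agent.Lib.MP_640417_ag.Wn

open Module

private lemma det_range {K V : Type} [Field K] [AddCommGroup V] [Module K V]
    [FiniteDimensional K V] {Q : Module.End K V} (hQ : Q * Q = Q) {G : Module.End K V}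
    (hG : Q * G = G * Q) (hR : ∀ x ∈ LinearMap.range Q, G x ∈ LinearMap.range Q) :
    LinearMap.det (G.restrict hR) = LinearMap.det (Q * G + (1 - Q)) := by
  have hQx : ∀ x ∈ LinearMap.range Q, Q x = x := by
    rintro _ ⟨y, rfl⟩
    rw [← Module.End.mul_apply, hQ]
  have he : ∀ x ∈ LinearMap.range Q, (Q * G + (1 - Q)) x = G x := by
    intro x hx
    rw [LinearMap.add_apply, LinearMap.sub_apply, Module.End.one_apply, hQx x hx, sub_self,
      add_zero, hG, Module.End.mul_apply, hQx x hx]
  have hle : LinearMap.range Q ≤ (LinearMap.range Q).comap (Q * G + (1 - Q)) := by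
    intro x hx
    rw [Submodule.mem_comap, he x hx]
    exact hR x hx
  rw [LinearMap.det_eq_det_mul_det (LinearMap.range Q) (Q * G + (1 - Q)) hle]
  have h1 : (LinearMap.range Q).mapQ (LinearMap.range Q) (Q * G + (1 - Q)) hle =
      LinearMap.id := by
    apply Submodule.linearMap_qext
    ext x
    rw [LinearMap.comp_apply, LinearMap.comp_apply, Submodule.mkQ_apply, Submodule.mapQ_apply,
      LinearMap.id_apply, Submodule.Quotient.eq]
    refine ⟨G x - x, ?_⟩
    rw [LinearMap.add_apply, LinearMap.sub_apply, Module.End.one_apply, map_sub,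
      Module.End.mul_apply]
    abel
  rw [h1, LinearMap.det_id, mul_one]
  congr 1
  ext x
  exact (he x x.2).symm

theorem exists_roots {K V : Type} [Field K] [IsAlgClosed K] [AddCommGroup V] [Module K V]
    [FiniteDimensional K V] {e A : Module.End K V} (he : e * e = e) (hA : e * A = A * e) :
    ∃ R : Multiset K, Multiset.card R = finrank K (LinearMap.range e) ∧
      (∀ z ∈ R, A.HasEigenvalue z) ∧ LinearMap.det (e * A + (1 - e)) = R.prod := by
  have hR : ∀ x ∈ LinearMap.range e, A x ∈ LinearMap.range e := by
    rintro _ ⟨y, rfl⟩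
    refine ⟨A y, ?_⟩
    rw [← Module.End.mul_apply, hA, Module.End.mul_apply]
  have hs : (A.restrict hR).charpoly.Splits := IsAlgClosed.splits _
  refine ⟨(A.restrict hR).charpoly.roots, ?_, ?_, ?_⟩
  · rw [← hs.natDegree_eq_card_roots, LinearMap.charpoly_natDegree]
  · intro z hz
    have h1 : (A.restrict hR).charpoly.IsRoot z :=
      (Polynomial.mem_roots (A.restrict hR).charpoly_monic.ne_zero).1 hz
    have h2 : Module.End.HasEigenvalue (A.restrict hR) z :=
      (Module.End.hasEigenvalue_iff_isRoot_charpoly _ z).2 h1
    obtain ⟨v, hv⟩ := h2.exists_hasEigenvector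
    refine Module.End.hasEigenvalue_of_hasEigenvector (x := (v : V)) ⟨?_, ?_⟩
    · rw [Module.End.mem_eigenspace_iff]
      have h3 := congrArg (Subtype.val) hv.apply_eq_smul
      exact h3
    · intro h3
      exact hv.2 (Subtype.ext h3)
  · rw [← det_range he hA hR]
    exact Module.End.det_eq_prod_roots_charpoly_of_splits hs

end Pool.Agent.Lib.MP_640417_ag.Wn
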