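import Pool.Agent.Lib.MP_640417_ag.Wn.Defs
import Mathlib.RingTheory.DedekindDomain.AdicValuation
import Mathlib.NumberTheory.NumberField.Basic

/-!
# MP_640417_ag, Wn, module Kron (40 lines): Kronecker's theorem

If all valuations of `x` are `1`, `x` is in the ring of integers (`HeightOneSpectrum.mem_integers_of_valuation_le_one`), so it is
integral, and `NumberField.Embeddings.pow_eq_one_of_norm_eq_one` applies (`‖φ x‖ = 1` from `‖φ x‖ ^ 2 = 1`).
-/

set_option autoImplicit false

namespace Pool.Agent.Lib.MP_640417_ag.Wn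

open IsDedekindDomain NumberField

theorem kronecker {L : Type} [Field L] [NumberField L] (x : L)
    (h1 : ∀ P : HeightOneSpectrum (𝓞 L), P.valuation L x = 1)
    (h2 : ∀ φ : L →+* ℂ, ‖φ x‖ ^ 2 = 1) : ∃ n : ℕ, 0 < n ∧ x ^ n = 1 := by
  obtain ⟨y, hy⟩ := HeightOneSpectrum.mem_integers_of_valuation_le_one L x (fun P => (h1 P).le)
  have hint : IsIntegral ℤ x := by
    rw [← hy]
    exact RingOfIntegers.isIntegral_coe y
  have hn : ∀ φ : L →+* ℂ, ‖φ x‖ = 1 := fun φ => by
    have h3 := h2 φ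
    have h4 := norm_nonneg (φ x)
    nlinarith [h3, h4]
  obtain ⟨n, hn0, hxn⟩ := NumberField.Embeddings.pow_eq_one_of_norm_eq_one L ℂ hint hn
  exact ⟨n, hn0, hxn⟩

end Pool.Agent.Lib.MP_640417_ag.Wn
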