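import Pool.Agent.Lib.MP_640417_ag.Wn.Ram
import Pool.Agent.Lib.MP_640417_ag.Wn.Kron

/-!
# MP_640417_ag, Wn, module Fin (100 lines): the relations are determined by the set of the valuation vectors

`root_iff`. Let `x = ∏ i, D i ^ t i`; all `D i ≠ 0` (from `WeilNum.norm` and an embedding, or from `exists_val`).
`→`: for `v ∈ valSet D M` with the prime `P`, `1 = valuation (x ^ n) = exp (-n * ∑ t i * v i)` (`map_pow`, `map_prod`, `map_zpow₀`,
`WithZero.exp_zsmul`, ...), so `n * ∑ t i v i = 0` (injectivity of `WithZero.exp`), `n ≠ 0`.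
`←`: for each `P` choose `a i` by `exists_val`, `a i ≤ finrank ℚ L * m i ≤ M`; then `v i = ⟨a i, _⟩` is in `valSet D M`, so
`valuation x = exp (-∑ t i * a i) = 1`. For an embedding `φ`: `‖φ x‖ ^ 2 = ∏ (p ^ m i) ^ t i = p ^ (∑ t i * m i) = 1`. Apply `kronecker`.
-/

set_option autoImplicit false

namespace Pool.Agent.Lib.MP_640417_ag.Wn

open IsDedekindDomain NumberField

/-- the vectors of the valuations of the `D i` -/
def valSet {L : Type} [Field L] [NumberField L] {N : ℕ} (D : Fin N → L) (M : ℕ) :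
    Set (Fin N → Fin (M + 1)) :=
  {v | ∃ P : HeightOneSpectrum (𝓞 L), ∀ i,
    P.valuation L (D i) = WithZero.exp (-((v i : ℕ) : ℤ))}

private theorem val_prod {L : Type} [Field L] [NumberField L] {N : ℕ} {D : Fin N → L}
    (P : HeightOneSpectrum (𝓞 L)) (a : Fin N → ℕ)
    (ha : ∀ i, P.valuation L (D i) = WithZero.exp (-(a i : ℤ))) (t : Fin N → ℤ) :
    P.valuation L (∏ i, D i ^ t i) = WithZero.exp (-(∑ i, t i * (a i : ℤ))) := by
  classical
  rw [map_prod]
  have key : ∀ s : Finset (Fin N), ∏ i ∈ s, P.valuation L (D i ^ t i) =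
      WithZero.exp (-(∑ i ∈ s, t i * (a i : ℤ))) := by
    intro s
    induction s using Finset.induction_on with
    | empty => simp
    | insert i s hi ih =>
      rw [Finset.prod_insert hi, ih, Finset.sum_insert hi, map_zpow₀, ha i, neg_add,
        WithZero.exp_add, ← WithZero.exp_zsmul, smul_eq_mul, mul_neg]
  exact key Finset.univ

theorem root_iff {L : Type} [Field L] [NumberField L] {p N M : ℕ} (hp : p.Prime)
    {m : Fin N → ℕ} {D : Fin N → L} (hD : ∀ i, WeilNum p (m i) (D i))
    (hM : ∀ i, Module.finrank ℚ L * m i ≤ M) (t : Fin N → ℤ) (ht : ∑ i, t i * (m i : ℤ) = 0) :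
    (∃ n : ℕ, 0 < n ∧ (∏ i, D i ^ t i) ^ n = 1) ↔
      ∀ v ∈ valSet D M, ∑ i, t i * ((v i : ℕ) : ℤ) = 0 := by
  classical
  constructor
  · rintro ⟨n, hn, hx⟩ v ⟨P, hv⟩
    have h1 : P.valuation L ((∏ i, D i ^ t i) ^ n) = 1 := by rw [hx, map_one]
    rw [map_pow, val_prod P (fun i => (v i : ℕ)) hv t, ← WithZero.exp_nsmul,
      WithZero.exp_eq_one, smul_neg, neg_eq_zero, nsmul_eq_mul, mul_eq_zero] at h1
    rcases h1 with h1 | h1
    · exact absurd (Nat.cast_eq_zero.mp h1) hn.ne'
    · exact h1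
  · intro h
    refine kronecker _ ?_ ?_
    · intro P
      choose a ha hv using fun i => exists_val hp (hD i) P
      have hlt : ∀ i, a i < M + 1 := fun i => Nat.lt_succ_of_le ((ha i).trans (hM i))
      have h2 := h (fun i => ⟨a i, hlt i⟩) ⟨P, hv⟩
      rw [val_prod P a hv t]
      have h3 : ∑ i, t i * (a i : ℤ) = 0 := h2
      rw [h3, neg_zero, WithZero.exp_zero]
    · intro φ
      have hp0 : (p : ℝ) ≠ 0 := Nat.cast_ne_zero.mpr hp.ne_zero
      have key : ∀ s : Finset (Fin N), ‖φ (∏ i ∈ s, D i ^ t i)‖ ^ 2 =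
          (p : ℝ) ^ (∑ i ∈ s, t i * (m i : ℤ)) := by
        intro s
        induction s using Finset.induction_on with
        | empty => simp
        | insert i s hi ih =>
          rw [Finset.prod_insert hi, Finset.sum_insert hi, map_mul, norm_mul, mul_pow, ih,
            zpow_add₀ hp0, map_zpow₀, norm_zpow]
          congr 1
          rw [← zpow_natCast, ← zpow_mul, mul_comm (t i), zpow_mul, zpow_natCast, (hD i).norm φ,
            ← zpow_natCast, ← zpow_mul, mul_comm (t i)]
      rw [key Finset.univ, ht, zpow_zero]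

end Pool.Agent.Lib.MP_640417_ag.Wn
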