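import Pool.Agent.Lib.MP_640417_ag.Wn.Deg

/-!
# MP_640417_ag, Wn, module Roots (100 lines): products of the roots are Weil numbers

Let `L = rootField Ω P` (a number field by `rootField_finite`; make the instance locally). Each root `z` of `P` in `Ω` is in `L`
(`IntermediateField.subset_adjoin`). `WeilNum p 1 z` in `L`: `z` is integral (root of the monic `P`: `⟨P, hP, _⟩`). For `φ : L →+* ℂ`,
`φ z` is a root of `P` (`Polynomial.aeval_algHom_apply` for `φ.toIntAlgHom`, or `map_aeval`-like lemmas), so `‖φ z‖ ^ 2 = p`; in particular `z ≠ 0` (there is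
an embedding). `z' = p / z` is integral: for an embedding `φ` the complex conjugate of `φ z` is `p / φ z` (`Complex.mul_conj`, `Complex.normSq_eq_norm_sq`) and
is a root of `P` (integral coefficients; `Polynomial.aeval_conj`-like lemma or `map_aeval` for `starRingEnd ℂ`), so `φ (aeval z' P) = aeval (φ z') P = 0` and
`aeval z' P = 0` by injectivity.
`WeilNum` is multiplicative: `WeilNum p m D → WeilNum p m' D' → WeilNum p (m + m') (D * D')`, and `WeilNum p 0 1`. Induction on the multiset `R`.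
-/

set_option autoImplicit false

namespace Pool.Agent.Lib.MP_640417_ag.Wn

open Polynomial

private lemma weil_one {L : Type} [Field L] [CharZero L] (p : ℕ) : WeilNum p 0 (1 : L) where
  int := isIntegral_one
  quot := ⟨1, isIntegral_one, by rw [pow_zero, mul_one]⟩
  norm φ := by rw [map_one, norm_one, pow_zero, one_pow]

private lemma weil_mul {L : Type} [Field L] [CharZero L] {p m n : ℕ} {D E : L}
    (hD : WeilNum p m D) (hE : WeilNum p n E) : WeilNum p (m + n) (D * E) where
  int := hD.int.mul hE.int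
  quot := by
    obtain ⟨D', h1, h2⟩ := hD.quot
    obtain ⟨E', h3, h4⟩ := hE.quot
    refine ⟨D' * E', h1.mul h3, ?_⟩
    rw [pow_add, ← h2, ← h4]
    ring
  norm φ := by
    rw [map_mul, norm_mul, mul_pow, hD.norm, hE.norm, pow_add]

private lemma aeval_hom {A B : Type} [CommRing A] [CommRing B] (φ : A →+* B) (z : A) (P : ℤ[X]) :
    aeval (φ z) P = φ (aeval z P) :=
  Polynomial.aeval_algHom_apply φ.toIntAlgHom z P

private lemma weil_root {L : Type} [Field L] [CharZero L] {P : ℤ[X]} (hP : P.Monic) {p : ℕ}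
    (hp : p.Prime) (hz : ∀ z : ℂ, aeval z P = 0 → ‖z‖ ^ 2 = p) (φ₀ : L →+* ℂ) {z : L}
    (h : aeval z P = 0) : WeilNum p 1 z := by
  have hp0 : (p : ℝ) ≠ 0 := Nat.cast_ne_zero.2 hp.ne_zero
  have h1 : ∀ φ : L →+* ℂ, ‖φ z‖ ^ 2 = p := by
    intro φ
    apply hz
    rw [aeval_hom, h, map_zero]
  have hz0 : z ≠ 0 := by
    intro h0
    have h2 := h1 φ₀
    rw [h0, map_zero, norm_zero] at h2
    apply hp0
    rw [← h2]
    norm_num
  refine ⟨⟨P, hP, h⟩, ⟨(p : L) / z, ⟨P, hP, ?_⟩, ?_⟩, ?_⟩
  · apply φ₀.injective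
    have h3 : φ₀ ((p : L) / z) = (starRingEnd ℂ) (φ₀ z) := by
      have h4 : φ₀ z ≠ 0 := by
        intro h5
        exact hz0 (φ₀.injective (by rw [h5, map_zero]))
      rw [map_div₀, map_natCast, div_eq_iff h4, mul_comm, Complex.mul_conj,
        Complex.normSq_eq_norm_sq, h1 φ₀]
      simp
    have h5 : aeval (φ₀ ((p : L) / z)) P = 0 := by
      rw [h3, aeval_hom (starRingEnd ℂ) (φ₀ z) P, aeval_hom φ₀ z P, h, map_zero, map_zero]
    rw [map_zero, ← h5]
    exact (aeval_hom φ₀ _ P).symm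
  · rw [pow_one, mul_div_cancel₀ _ hz0]
  · intro φ
    rw [h1 φ, pow_one]

theorem weil_prod {Ω : Type} [Field Ω] [CharZero Ω] {P : ℤ[X]} (hP : P.Monic) {p : ℕ}
    (hp : p.Prime) (hz : ∀ z : ℂ, aeval z P = 0 → ‖z‖ ^ 2 = p) (R : Multiset Ω)
    (hR : ∀ z ∈ R, aeval z P = 0) :
    ∃ D : rootField Ω P, (D : Ω) = R.prod ∧ WeilNum p (Multiset.card R) D := by
  have : FiniteDimensional ℚ (rootField Ω P) := (rootField_finite Ω hP).1
  have : Algebra.IsAlgebraic ℚ (rootField Ω P) := Algebra.IsAlgebraic.of_finite _ _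
  let φ₀ : rootField Ω P →ₐ[ℚ] ℂ := IsAlgClosed.lift
  induction R using Multiset.induction_on with
  | empty =>
    refine ⟨1, ?_, ?_⟩
    · rw [Multiset.prod_zero]
      exact OneMemClass.coe_one _
    · rw [Multiset.card_zero]
      exact weil_one p
  | cons z R ih =>
    obtain ⟨D, h1, h2⟩ := ih fun w hw => hR w (Multiset.mem_cons_of_mem hw)
    have h3 : aeval z P = 0 := hR z (Multiset.mem_cons_self z R)
    have h4 : z ∈ rootField Ω P := IntermediateField.subset_adjoin ℚ _ h3
    have h5 : aeval (⟨z, h4⟩ : rootField Ω P) P = 0 := by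
      apply (rootField Ω P).val.toRingHom.injective
      rw [← aeval_hom, map_zero]
      exact h3
    refine ⟨⟨z, h4⟩ * D, ?_, ?_⟩
    · rw [Multiset.prod_cons, ← h1]
      rfl
    · rw [Multiset.card_cons, add_comm]
      exact weil_mul (weil_root hP hp hz φ₀.toRingHom h5) h2

end Pool.Agent.Lib.MP_640417_ag.Wn
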