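import Pool.Agent.Lib.MP_640417_ag.Wn.Defs
import Mathlib.RingTheory.RootsOfUnity.Minpoly
import Mathlib.Data.Nat.Totient

/-!
# MP_640417_ag, Wn, module Tot (60 lines): orders of roots of unity

`dvd_ord`: by `Nat.dvd_iff_prime_pow_dvd_dvd` (or the factorization) it is enough that `q ^ a ∣ n` implies `q ^ a ∣ ord B` for primes `q`. `a = 0` is
trivial. Otherwise `φ (q ^ a) = q ^ (a - 1) * (q - 1)` divides `φ n` (`Nat.totient_dvd_of_dvd`), which is positive and `≤ B`. So `q - 1 ≤ B`, i.e. `q ≤ B + 1` and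
`q ∣ (B + 1)!` (`Nat.dvd_factorial`), and `2 ^ (a - 1) ≤ q ^ (a - 1) ≤ B < 2 ^ B` (`Nat.lt_two_pow_self`), so `a ≤ B + 1`. Hence
`q ^ a ∣ (B + 1)! ^ a ∣ (B + 1)! ^ (B + 1)`.

`pow_ord`: let `n` be the order of `x` (`orderOf`, positive since `x ^ m = 1`); `x` is a primitive `n`-th root of unity (`IsPrimitiveRoot.orderOf`).
`IsPrimitiveRoot.totient_le_degree_minpoly : φ n ≤ (minpoly ℤ x).natDegree`, and `minpoly ℤ x` has the same degree as
`minpoly ℚ x` (`minpoly.isIntegrallyClosed_eq_field_fractions'`, map by `Int.castRingHom ℚ` = algebraMap), whose degree is at most `finrank ℚ L`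
(`minpoly.natDegree_le`). Then `n ∣ ord B`.
-/

set_option autoImplicit false

namespace Pool.Agent.Lib.MP_640417_ag.Wn

theorem dvd_ord {n B : ℕ} (hn : 0 < n) (h : Nat.totient n ≤ B) : n ∣ ord B := by
  unfold ord
  rw [Nat.dvd_iff_prime_pow_dvd_dvd]
  intro q a hq hqa
  rcases Nat.eq_zero_or_pos a with ha | ha
  · subst ha
    rw [pow_zero]
    exact one_dvd _
  have h1 : Nat.totient (q ^ a) ≤ B :=
    (Nat.le_of_dvd (Nat.totient_pos.2 hn) (Nat.totient_dvd_of_dvd hqa)).trans h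
  rw [Nat.totient_prime_pow hq ha] at h1
  have hq2 := hq.two_le
  have h2 : q - 1 ≤ B :=
    (Nat.le_mul_of_pos_left (q - 1) (pow_pos hq.pos (a - 1))).trans h1
  have h3 : q ^ (a - 1) ≤ B :=
    (Nat.le_mul_of_pos_right (q ^ (a - 1)) (show 0 < q - 1 by omega)).trans h1
  have h4 : 2 ^ (a - 1) < 2 ^ B :=
    ((Nat.pow_le_pow_left hq2 (a - 1)).trans h3).trans_lt Nat.lt_two_pow_self
  have h5 : a - 1 < B := (Nat.pow_lt_pow_iff_right (by norm_num)).1 h4
  have h6 : q ∣ Nat.factorial (B + 1) := Nat.dvd_factorial hq.pos (by omega)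
  exact (pow_dvd_pow_of_dvd h6 a).trans (pow_dvd_pow _ (by omega))

theorem pow_ord {L : Type} [Field L] [NumberField L] {B : ℕ}
    (hB : Module.finrank ℚ L ≤ B) (x : L) {m : ℕ} (hm : 0 < m) (hx : x ^ m = 1) :
    x ^ ord B = 1 := by
  have h1 : 0 < orderOf x := orderOf_pos_iff.2 (isOfFinOrder_iff_pow_eq_one.2 ⟨m, hm, hx⟩)
  have h2 : IsPrimitiveRoot x (orderOf x) := IsPrimitiveRoot.orderOf x
  have h3 := h2.totient_le_degree_minpoly
  have h4 : IsIntegral ℤ x := h2.isIntegral h1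
  have h5 : minpoly ℚ x = (minpoly ℤ x).map (algebraMap ℤ ℚ) :=
    minpoly.isIntegrallyClosed_eq_field_fractions' ℚ h4
  have h6 : (minpoly ℤ x).natDegree = (minpoly ℚ x).natDegree := by
    rw [h5, (minpoly.monic h4).natDegree_map]
  have h7 : (minpoly ℚ x).natDegree ≤ Module.finrank ℚ L := minpoly.natDegree_le x
  exact orderOf_dvd_iff_pow_eq_one.1 (dvd_ord h1 (by omega))

end Pool.Agent.Lib.MP_640417_ag.Wn
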