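import Pool.Agent.Lib.MP_640417_ag.Wn.Fam
import Pool.Agent.Lib.MP_640417_ag.Wn.Fin
import Pool.Agent.Lib.MP_640417_ag.Wn.Tot
import Pool.Agent.Lib.MP_640417_ag.Wn.Roots
import Pool.Agent.Lib.MP_640417_ag.Wn.DetE
import Pool.Agent.Lib.MP_640417_ag.Dfr.Rel
import Pool.Agent.Lib.MP_640417_ag.Dfr.FullK
import Pool.Agent.Lib.MP_640417_ag.Frob.BaseRep

/-!
# MP_640417_ag, Wn, module Elt (120 lines): the relations of a Frobenius element

Let `K = AlgebraicClosure F`, `d = finrank F V`, `B = d ^ d`, `n0 = ord B`, `M = B * d`, `m i = finrank K (range (ε i)) ≤ d` (`finrank K (K ⊗ V) = d`).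
`T γ` commutes with `ε i` (`comK_full`, `hS.mem`). Let `p, P` be as in `FrobLike`; `P` is monic of degree `d` (its image is the
characteristic polynomial; `Polynomial.monic_of_injective`, `natDegree_map_eq_of_injective`). For each `i` `exists_roots` (`DetE`) gives `R i`, all of whose
elements are eigenvalues of `(T γ).baseChange K`, so roots of its characteristic polynomial (`LinearMap.charpoly_baseChange`), which is the image of `P`.
`weil_prod` gives `D i : rootField K P` with `(D i : K) = det (ε i * T γ + (1 - ε i))` and `WeilNum p (m i) (D i)`. Take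
`S = valSet D M` (`rootField K P` is a number field of degree `≤ B` by `rootField_finite`). For good `t`: `∑ t i * m i = 0`, since the trace of the skew `z = ∑ t i • ε i` is
zero (`Adj.trace`, see the proof of `htr` in `Dfr/Rel.lean`; `trace_idem`). `detProd ε t (T γ)` is the image of `∏ D i ^ t i` (`map_prod`, `map_zpow₀`).
First claim: `root_iff` with `n = 1`. Second: `root_iff` gives `n`, and `pow_ord`.
-/

set_option autoImplicit false

namespace Pool.Agent.Lib.MP_640417_ag.Wn

open Module TensorProduct Pool.Agent.Lib.MP_640417_ag Pool.Agent.Lib.MP_640417_ag.Frob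
  Pool.Agent.Lib.MP_640417_ag.Four Pool.Agent.Lib.MP_640417_ag.Ty
  Pool.Agent.Lib.MP_640417_ag.Lef Pool.Agent.Lib.MP_640417_ag.Dfr

theorem elt_roots {F : Type} [Field F] [CharZero F] {V : Type}
    [AddCommGroup V] [Module F V] [FiniteDimensional F V] (A : Module.End F V) {P : Polynomial ℤ}
    (hP : A.charpoly = P.map (Int.castRingHom F)) {z : AlgebraicClosure F}
    (hz : Module.End.HasEigenvalue (A.baseChange (AlgebraicClosure F)) z) : Polynomial.aeval z P = 0 := by
  have h1 := (Module.End.hasEigenvalue_iff_isRoot_charpoly _ z).mp hz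
  rw [LinearMap.charpoly_baseChange, hP, Polynomial.map_map] at h1
  have h2 : (algebraMap F (AlgebraicClosure F)).comp (Int.castRingHom F) =
      algebraMap ℤ (AlgebraicClosure F) := RingHom.ext_int _ _
  rw [h2, Polynomial.IsRoot, Polynomial.eval_map] at h1
  exact h1

private theorem elt_trace {K V : Type} [Field K] [CharZero K] [AddCommGroup V] [Module K V]
    [FiniteDimensional K V] {form : LinearMap.BilinForm K V} {C : Subalgebra K (Module.End K V)}
    (hnd : ∀ x, (∀ y, form x y = 0) → x = 0) {N : ℕ} {st : Fin N → Fin N} {ε : Fin N → Module.End K V}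
    (hS : Sys form C N st ε) {t : Fin N → ℤ} (ht : GoodT form C ε t) :
    ∑ i, t i * ((finrank K (LinearMap.range (ε i)) : ℕ) : ℤ) = 0 := by
  obtain ⟨z, hz⟩ : ∃ z, z = ∑ i, (t i : K) • ε i := ⟨_, rfl⟩
  have hzs : RelM.Adj form z (-z) := by
    intro x y
    have h := ht.skew x y
    rw [← hz] at h
    rw [LinearMap.neg_apply, map_neg]
    exact eq_neg_of_add_eq_zero_left h
  have h1 := hzs.trace hnd
  rw [map_neg] at h1
  have h2 : LinearMap.trace K V z = 0 := by
    have h3 : (2 : K) * LinearMap.trace K V z = 0 := by linear_combination -h1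
    exact (mul_eq_zero.mp h3).resolve_left two_ne_zero
  rw [hz, map_sum] at h2
  have h3 : ((∑ i, t i * ((finrank K (LinearMap.range (ε i)) : ℕ) : ℤ) : ℤ) : K) = 0 := by
    rw [← h2]
    push_cast
    refine Finset.sum_congr rfl fun i _ => ?_
    rw [map_smul, RelM.trace_idem (hS.idem i), smul_eq_mul]
  exact_mod_cast h3

theorem exists_set {F : Type} [Field F] [TopologicalSpace F] [CharZero F] {V : Type}
    [AddCommGroup V] [Module F V] [FiniteDimensional F V] {Γ : Type} [Group Γ]
    [TopologicalSpace Γ] (ρ : H1Rep Γ F V)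
    (hfull : ∀ c, CommF ρ c → ∀ γ, c * ρ.T γ = ρ.T γ * c) {N : ℕ} {st : Fin N → Fin N}
    {ε : Fin N → Module.End (AlgebraicClosure F) (AlgebraicClosure F ⊗[F] V)}
    (hS : Sys (ρ.form.baseChange (AlgebraicClosure F)) (comK ρ) N st ε) :
    ∃ n0 M : ℕ, 0 < n0 ∧ ∀ γ, FrobLike ρ γ → ∃ S : Set (Fin N → Fin (M + 1)),
      ∀ t : Fin N → ℤ,
        GoodT (ρ.form.baseChange (AlgebraicClosure F)) (comK ρ) ε t →
        ((detProd ε t ((ρ.T γ).baseChange (AlgebraicClosure F)) = 1 →
          ∀ v ∈ S, ∑ i, t i * ((v i : ℕ) : ℤ) = 0) ∧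
        ((∀ v ∈ S, ∑ i, t i * ((v i : ℕ) : ℤ) = 0) →
          detProd ε t ((ρ.T γ).baseChange (AlgebraicClosure F)) ^ n0 = 1)) := by
  classical
  refine ⟨ord (finrank F V ^ finrank F V), finrank F V ^ finrank F V * finrank F V,
    pow_pos (Nat.factorial_pos _) _, ?_⟩
  rintro γ ⟨p, P, hF, hnorm⟩
  have hPm : P.Monic := by
    apply Polynomial.monic_of_injective (f := Int.castRingHom F) Int.cast_injective
    rw [← hF.charpoly]
    exact LinearMap.charpoly_monic _
  have hPd : P.natDegree = finrank F V := by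
    rw [← Polynomial.natDegree_map_eq_of_injective (f := Int.castRingHom F) Int.cast_injective,
      ← hF.charpoly, LinearMap.charpoly_natDegree]
  obtain ⟨A, hA⟩ : ∃ A, A = (ρ.T γ).baseChange (AlgebraicClosure F) := ⟨_, rfl⟩
  rw [← hA]
  have hcomm : ∀ i, ε i * A = A * ε i := by
    intro i
    rw [hA]
    exact comK_full ρ hfull (hS.mem i) γ
  choose R hRc hRe hRd using fun i => exists_roots (hS.idem i) (hcomm i)
  have hRP : ∀ i, ∀ z ∈ R i, Polynomial.aeval z P = 0 := by
    intro i z hz
    have h1 := hRe i z hz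
    rw [hA] at h1
    exact elt_roots (ρ.T γ) hF.charpoly h1
  choose D hDR hDW using fun i => weil_prod hPm hF.prime hnorm (R i) (hRP i)
  obtain ⟨hfin, hdeg⟩ := rootField_finite (AlgebraicClosure F) hPm
  have hNF : NumberField (rootField (AlgebraicClosure F) P) :=
    { to_charZero := inferInstance
      to_finiteDimensional := by convert hfin }
  have hdeg' : finrank ℚ (rootField (AlgebraicClosure F) P) ≤ finrank F V ^ finrank F V := by
    rw [hPd] at hdeg
    convert hdeg
  have hm : ∀ i, Multiset.card (R i) ≤ finrank F V := by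
    intro i
    rw [hRc]
    refine (Submodule.finrank_le _).trans ?_
    rw [Module.finrank_baseChange]
  have hDp : ∀ t : Fin N → ℤ, detProd ε t A =
      ((∏ i, D i ^ t i : rootField (AlgebraicClosure F) P) : AlgebraicClosure F) := by
    intro t
    rw [detProd]
    push_cast
    refine Finset.prod_congr rfl fun i _ => ?_
    rw [hRd, ← hDR]
    exact (map_zpow₀ (algebraMap (rootField (AlgebraicClosure F) P) (AlgebraicClosure F)) (D i)
      (t i)).symm
  refine ⟨valSet D (finrank F V ^ finrank F V * finrank F V), fun t ht => ?_⟩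
  have ht0 : ∑ i, t i * ((Multiset.card (R i) : ℕ) : ℤ) = 0 := by
    rw [← elt_trace (nondeg_baseChange (AlgebraicClosure F) ρ.form ρ.form_alt ρ.form_nondeg) hS ht]
    exact Finset.sum_congr rfl fun i _ => by rw [hRc]
  have hiff := root_iff (M := finrank F V ^ finrank F V * finrank F V) hF.prime hDW
    (fun i => Nat.mul_le_mul hdeg' (hm i)) t ht0
  constructor
  · intro h1
    apply hiff.mp
    refine ⟨1, one_pos, ?_⟩
    rw [hDp] at h1
    rw [pow_one]
    exact_mod_cast h1
  · intro h1
    obtain ⟨n, hn, hn1⟩ := hiff.mpr h1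
    have h2 := pow_ord hdeg' _ hn hn1
    rw [hDp]
    exact_mod_cast h2

end Pool.Agent.Lib.MP_640417_ag.Wn
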