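import Pool.Agent.Lib.MP_640417_ag.Wn.Null
import Pool.Agent.Lib.MP_640417_ag.Wn.Elt

/-!
# MP_640417_ag, Wn: almost all Frobenius elements have no relations between determinants
-/

set_option autoImplicit false

namespace Pool.Agent.Lib.MP_640417_ag.Wn

open Module TensorProduct MeasureTheory Pool.Agent.Lib.MP_640417_ag
  Pool.Agent.Lib.MP_640417_ag.Frob
  Pool.Agent.Lib.MP_640417_ag.Four Pool.Agent.Lib.MP_640417_ag.Ty
  Pool.Agent.Lib.MP_640417_ag.Lef Pool.Agent.Lib.MP_640417_ag.Dfr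

theorem goodT_mul {K V : Type} [Field K] [CharZero K] [AddCommGroup V] [Module K V]
    {form : LinearMap.BilinForm K V} {C : Subalgebra K (Module.End K V)} {N : ℕ}
    {ε : Fin N → Module.End K V} {t : Fin N → ℤ} (ht : GoodT form C ε t) {n : ℕ} (hn : 0 < n) :
    GoodT form C ε (fun i => (n : ℤ) * t i) := by
  have h1 : ∑ i, (((n : ℤ) * t i : ℤ) : K) • ε i = (n : K) • ∑ i, (t i : K) • ε i := by
    rw [Finset.smul_sum]
    refine Finset.sum_congr rfl fun i _ => ?_
    rw [smul_smul]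
    push_cast
    rfl
  refine ⟨?_, ?_, ?_⟩
  · intro c hc
    rw [h1, mul_smul_comm, smul_mul_assoc, ht.cen c hc]
  · rw [h1]
    intro x y
    rw [LinearMap.smul_apply, LinearMap.smul_apply, map_smul, map_smul, LinearMap.smul_apply,
      ← smul_add, ht.skew x y, smul_zero]
  · rw [h1]
    exact smul_ne_zero (Nat.cast_ne_zero.mpr hn.ne') ht.ne

theorem detProd_mul {K V : Type} [Field K] [AddCommGroup V] [Module K V]
    {N : ℕ} (ε : Fin N → Module.End K V) (t : Fin N → ℤ) (n : ℕ) (g : Module.End K V) :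
    detProd ε (fun i => (n : ℤ) * t i) g = detProd ε t g ^ n := by
  rw [detProd, detProd, ← Finset.prod_pow]
  refine Finset.prod_congr rfl fun i _ => ?_
  rw [mul_comm, zpow_mul, zpow_natCast]

/-- **Almost all Frobenius elements have no relations between determinants.** -/
theorem exists_ball {F : Type} [NontriviallyNormedField F] [CharZero F] {V : Type}
    [AddCommGroup V] [Module F V] [FiniteDimensional F V] {Γ : Type} [Group Γ]
    [TopologicalSpace Γ] [IsTopologicalGroup Γ] [CompactSpace Γ] [MeasurableSpace Γ]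
    [BorelSpace Γ] (ν : Measure Γ) [ν.IsHaarMeasure] (ρ : H1Rep Γ F V)
    (hfull : ∀ c, CommF ρ c → ∀ γ, c * ρ.T γ = ρ.T γ * c) {N : ℕ} {st : Fin N → Fin N}
    {ε : Fin N → Module.End (AlgebraicClosure F) (AlgebraicClosure F ⊗[F] V)}
    (hS : Sys (ρ.form.baseChange (AlgebraicClosure F)) (comK ρ) N st ε)
    (hW : ¬ WeilRel ρ) :
    ∃ O : Set Γ, IsOpen O ∧ ν Oᶜ = 0 ∧ ∀ γ ∈ O, FrobLike ρ γ → DetFree ρ γ := by
  classical
  have hchar : CharZero (AlgebraicClosure F) :=
    charZero_of_injective_algebraMap (algebraMap F (AlgebraicClosure F)).injective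
  obtain ⟨n0, M, hn0, hset⟩ := exists_set ρ hfull hS
  let hasT : Set (Fin N → Fin (M + 1)) → Prop := fun S =>
    ∃ t : Fin N → ℤ, GoodT (ρ.form.baseChange (AlgebraicClosure F)) (comK ρ) ε t ∧
      ∀ v ∈ S, ∑ i, t i * ((v i : ℕ) : ℤ) = 0
  have hτ : ∀ S, ∃ t : Fin N → ℤ, hasT S →
      GoodT (ρ.form.baseChange (AlgebraicClosure F)) (comK ρ) ε t ∧
        ∀ v ∈ S, ∑ i, t i * ((v i : ℕ) : ℤ) = 0 := by
    intro S
    by_cases h : hasT S
    · obtain ⟨t, ht⟩ := h
      exact ⟨t, fun _ => ht⟩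
    · exact ⟨0, fun h' => absurd h' h⟩
  choose τ hτ using hτ
  let D : Set (Fin N → Fin (M + 1)) → Set Γ := fun S => {γ | hasT S →
    detProd ε (fun i => (n0 : ℤ) * τ S i) ((ρ.T γ).baseChange (AlgebraicClosure F)) ≠ 1}
  have hD : ∀ S, IsOpen (D S) ∧ ν (D S)ᶜ = 0 := by
    intro S
    by_cases h : hasT S
    · obtain ⟨h1, h2⟩ := null_of_goodT ν ρ hfull hS hW (goodT_mul (hτ S h).1 hn0)
      have h3 : D S = {γ | detProd ε (fun i => (n0 : ℤ) * τ S i)
          ((ρ.T γ).baseChange (AlgebraicClosure F)) ≠ 1} := by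
        ext γ
        exact ⟨fun h4 => h4 h, fun h4 _ => h4⟩
      rw [h3]
      refine ⟨h1, ?_⟩
      have h4 : {γ | detProd ε (fun i => (n0 : ℤ) * τ S i)
          ((ρ.T γ).baseChange (AlgebraicClosure F)) ≠ 1}ᶜ =
          {γ | detProd ε (fun i => (n0 : ℤ) * τ S i)
          ((ρ.T γ).baseChange (AlgebraicClosure F)) = 1} := by
        ext γ
        exact not_not
      rw [h4]
      exact h2
    · have h1 : D S = Set.univ := by
        ext γ
        exact ⟨fun _ => trivial, fun _ h' => absurd h' h⟩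
      rw [h1]
      exact ⟨isOpen_univ, by rw [Set.compl_univ, measure_empty]⟩
  refine ⟨⋂ S, D S, isOpen_iInter_of_finite fun S => (hD S).1, ?_, ?_⟩
  · rw [Set.compl_iInter]
    exact measure_iUnion_null fun S => (hD S).2
  · intro γ hγ hF
    by_contra hcon
    have hu : IsUnit ((ρ.T γ).baseChange (AlgebraicClosure F)) :=
      ((Group.isUnit γ).map ρ.T).map (Module.End.baseChangeHom F (AlgebraicClosure F) V)
    obtain ⟨t, ht, hdet⟩ := exists_goodT hS (fun c hc => comK_full ρ hfull hc γ) hu hcon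
    obtain ⟨S, hSt⟩ := hset γ hF
    have h1 : hasT S := ⟨t, ht, (hSt t ht).1 hdet⟩
    have h2 := hτ S h1
    have h3 := (hSt (τ S) h2.1).2 h2.2
    have h4 := Set.mem_iInter.mp hγ S h1
    rw [detProd_mul] at h4
    exact h4 h3

end Pool.Agent.Lib.MP_640417_ag.Wn
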