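import Pool.Agent.Lib.MP_640417_ag.Frob.Setup
import Mathlib.NumberTheory.NumberField.InfinitePlace.Embeddings

/-!
# MP_640417_ag, Wn (relations between the eigenvalues of Frobenius elements): definitions
-/

set_option autoImplicit false

namespace Pool.Agent.Lib.MP_640417_ag.Wn

open Polynomial Pool.Agent.Lib.MP_640417_ag Pool.Agent.Lib.MP_640417_ag.Frob

/-- The element `γ` acts like the (geometric) Frobenius element of a place of good reduction whose
residue field has a prime number `p` of elements: its characteristic polynomial on `V` has integral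
coefficients, `χ γ = p⁻¹`, and all complex roots of the polynomial have absolute value `√p`. -/
def FrobLike {Γ : Type} [Group Γ] [TopologicalSpace Γ] {F : Type} [Field F]
    [TopologicalSpace F] {V : Type} [AddCommGroup V] [Module F V] [FiniteDimensional F V]
    (ρ : H1Rep Γ F V) (γ : Γ) : Prop :=
  ∃ (p : ℕ) (P : ℤ[X]), IsFrobenius ρ γ p 1 P ∧ ∀ z : ℂ, aeval z P = 0 → ‖z‖ ^ 2 = p

/-- a bound for the orders of the roots of unity in fields of degree at most `B` -/
def ord (B : ℕ) : ℕ := (Nat.factorial (B + 1)) ^ (B + 1)

/-- `D` is a product of `m` Weil numbers of weight one for the prime `p` -/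
structure WeilNum {L : Type} [Field L] [CharZero L] (p m : ℕ) (D : L) : Prop where
  int : IsIntegral ℤ D
  quot : ∃ D' : L, IsIntegral ℤ D' ∧ D * D' = (p : L) ^ m
  norm : ∀ φ : L →+* ℂ, ‖φ D‖ ^ 2 = (p : ℝ) ^ m

end Pool.Agent.Lib.MP_640417_ag.Wn
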