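import Pool.Agent.Lib.MP_640417_ag.Wn.Defs
import Mathlib.FieldTheory.IntermediateField.Adjoin.Basic

/-!
# MP_640417_ag, Wn, module Deg (80 lines): the degree of the field generated by the roots

`finrank_adjoin_le`: induction on the finset `S`. `adjoin ℚ ∅ = ⊥` has degree one. `adjoin ℚ (insert z S) = adjoin ℚ {z} ⊔ adjoin ℚ S`
(`IntermediateField.adjoin_union` with `Set.insert_eq`), `IntermediateField.finrank_sup_le`, `IntermediateField.adjoin.finrank`
(degree of `ℚ(z)` is the degree of the minimal polynomial), `IntermediateField.finiteDimensional_sup`.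

`rootField_finite`: `{z | aeval z P = 0}` is the set of the roots of `P.map (Int.castRingHom Ω)` (finset, at most `natDegree P` elements:
`Multiset.toFinset_card_le`, `Polynomial.card_roots'`); each root is integral and its minimal polynomial over `ℚ` divides
`P.map (Int.castRingHom ℚ)` (`minpoly.dvd`, `Polynomial.natDegree_le_of_dvd`). `d ^ card ≤ d ^ d` if `d ≥ 1` (`Nat.pow_le_pow_right`); if
`d = 0`, `P = 1` has no roots and `card = 0`.
-/

set_option autoImplicit false

namespace Pool.Agent.Lib.MP_640417_ag.Wn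

open Polynomial

/-- the field generated by the roots of `P` in `Ω` -/
def rootField (Ω : Type) [Field Ω] [CharZero Ω] (P : ℤ[X]) : IntermediateField ℚ Ω :=
  IntermediateField.adjoin ℚ {z | aeval z P = 0}

theorem finrank_adjoin_le {Ω : Type} [Field Ω] [CharZero Ω] (S : Finset Ω) {d : ℕ}
    (hd : ∀ z ∈ S, IsIntegral ℚ z ∧ (minpoly ℚ z).natDegree ≤ d) :
    FiniteDimensional ℚ (IntermediateField.adjoin ℚ (S : Set Ω)) ∧
      Module.finrank ℚ (IntermediateField.adjoin ℚ (S : Set Ω)) ≤ d ^ S.card := by
  classical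
  induction S using Finset.induction_on with
  | empty =>
    rw [Finset.coe_empty, IntermediateField.adjoin_empty]
    refine ⟨inferInstance, ?_⟩
    rw [IntermediateField.finrank_bot, Finset.card_empty, pow_zero]
  | insert z S hz ih =>
    obtain ⟨ih1, ih2⟩ := ih fun w hw => hd w (Finset.mem_insert_of_mem hw)
    obtain ⟨h1, h2⟩ := hd z (Finset.mem_insert_self z S)
    have := ih1
    have : FiniteDimensional ℚ (IntermediateField.adjoin ℚ {z}) :=
      IntermediateField.adjoin.finiteDimensional h1
    have h3 : IntermediateField.adjoin ℚ ((insert z S : Finset Ω) : Set Ω) =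
        IntermediateField.adjoin ℚ {z} ⊔ IntermediateField.adjoin ℚ (S : Set Ω) := by
      rw [Finset.coe_insert, Set.insert_eq, IntermediateField.adjoin_union]
    rw [h3]
    refine ⟨IntermediateField.finiteDimensional_sup _ _, ?_⟩
    refine (IntermediateField.finrank_sup_le _ _).trans ?_
    rw [Finset.card_insert_of_notMem hz, pow_succ, mul_comm, IntermediateField.adjoin.finrank h1]
    exact Nat.mul_le_mul ih2 h2

theorem rootField_finite (Ω : Type) [Field Ω] [CharZero Ω] {P : ℤ[X]} (hP : P.Monic) :
    FiniteDimensional ℚ (rootField Ω P) ∧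
      Module.finrank ℚ (rootField Ω P) ≤ P.natDegree ^ P.natDegree := by
  classical
  have hP0 : P.map (algebraMap ℤ Ω) ≠ 0 := (hP.map _).ne_zero
  have hPQ : P.map (algebraMap ℤ ℚ) ≠ 0 := (hP.map _).ne_zero
  have hset : {z : Ω | aeval z P = 0} = ((P.map (algebraMap ℤ Ω)).roots.toFinset : Set Ω) := by
    ext z
    rw [Finset.mem_coe, Multiset.mem_toFinset, mem_roots hP0, IsRoot.def, eval_map,
      Set.mem_ofPred_eq]
    rfl
  have hcard : (P.map (algebraMap ℤ Ω)).roots.toFinset.card ≤ P.natDegree := by
    refine (Multiset.toFinset_card_le _).trans ((card_roots' _).trans ?_)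
    exact natDegree_map_le
  have hint : ∀ z : Ω, aeval z P = 0 → IsIntegral ℚ z ∧ (minpoly ℚ z).natDegree ≤ P.natDegree := by
    intro z hz
    have h1 : aeval z (P.map (algebraMap ℤ ℚ)) = 0 := by
      rw [aeval_map_algebraMap]
      exact hz
    refine ⟨⟨P.map (algebraMap ℤ ℚ), hP.map _, h1⟩, ?_⟩
    have h2 : minpoly ℚ z ∣ P.map (algebraMap ℤ ℚ) := minpoly.dvd ℚ z h1
    exact (natDegree_le_of_dvd h2 hPQ).trans natDegree_map_le
  have hfr := finrank_adjoin_le (P.map (algebraMap ℤ Ω)).roots.toFinset (d := P.natDegree)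
    (fun z hz => hint z (by
      have : z ∈ {z : Ω | aeval z P = 0} := by
        rw [hset]
        exact hz
      exact this))
  unfold rootField
  rw [hset]
  refine ⟨hfr.1, hfr.2.trans ?_⟩
  rcases Nat.eq_zero_or_pos P.natDegree with h0 | h0
  · have h1 : (P.map (algebraMap ℤ Ω)).roots.toFinset.card = 0 := by omega
    rw [h1, h0]
  · exact Nat.pow_le_pow_right h0 hcard

end Pool.Agent.Lib.MP_640417_ag.Wn
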