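import Pool.Agent.Lib.MP_640417_ag.Wn.Fam

/-!
# MP_640417_ag, Wn, module FamB (100 lines): from integers to families of central idempotents

Write `z = ∑ i, (t i : K) • ε i`.
`exists_cenRel`: let `A = Finset.univ.image t`, `k = A.card`, `s j` the `j`-th element of `A` (`A.equivFin.symm` or `A.orderEmbOfFin`), `p j = ∑ i with t i = s j, ε i`.
`ε i * c * ε k = 0` if `t i ≠ t k`, since `(t k - t i) • (ε i * c * ε k) = ε i * (c * z - z * c) * ε k = 0` (characteristic zero). So
`c * p j = ∑ i, k, t k = s j, ε i * c * ε k = ∑ (t i = s j, t k = s j) = p j * c` (insert `∑ ε i = 1`). `∑ s j • p j = z`: partition the sum by the value of `t`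
(`Finset.sum_fiberwise`-like). The same for the determinants (`det_sum`, `Finset.prod_zpow`).
-/

set_option autoImplicit false
set_option linter.unusedSectionVars false

namespace Pool.Agent.Lib.MP_640417_ag.Wn

open Module TensorProduct Pool.Agent.Lib.MP_640417_ag Pool.Agent.Lib.MP_640417_ag.Frob
  Pool.Agent.Lib.MP_640417_ag.Four Pool.Agent.Lib.MP_640417_ag.Ty
  Pool.Agent.Lib.MP_640417_ag.Lef Pool.Agent.Lib.MP_640417_ag.Dfr

variable {K V : Type} [Field K] [CharZero K] [AddCommGroup V] [Module K V] [FiniteDimensional K V]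
  {form : LinearMap.BilinForm K V} {C : Subalgebra K (Module.End K V)} {N : ℕ} {st : Fin N → Fin N}
  {ε : Fin N → Module.End K V}

theorem exists_cenRel (hS : Sys form C N st ε) {t : Fin N → ℤ} (ht : GoodT form C ε t) :
    ∃ (k : ℕ) (p : Fin k → Module.End K V) (s : Fin k → ℤ), CenRel form C p s ∧
      ∑ j, (s j : K) • p j ≠ 0 ∧
      ∀ g : Module.End K V, (∀ c ∈ C, c * g = g * c) → IsUnit g →
        detProd p s g = detProd ε t g := by
  classical
  obtain ⟨z, hz⟩ : ∃ z, z = ∑ i, (t i : K) • ε i := ⟨_, rfl⟩
  have hez : ∀ i, ε i * z = (t i : K) • ε i := by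
    intro i
    rw [hz, Finset.mul_sum, Finset.sum_eq_single i]
    · rw [mul_smul_comm, hS.idem]
    · intro j _ hj
      rw [mul_smul_comm, hS.orth i j (Ne.symm hj), smul_zero]
    · intro h
      exact absurd (Finset.mem_univ i) h
  have hze : ∀ i, z * ε i = (t i : K) • ε i := by
    intro i
    rw [hz, Finset.sum_mul, Finset.sum_eq_single i]
    · rw [smul_mul_assoc, hS.idem]
    · intro j _ hj
      rw [smul_mul_assoc, hS.orth j i hj, smul_zero]
    · intro h
      exact absurd (Finset.mem_univ i) h
  have hcz : ∀ c ∈ C, c * z = z * c := by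
    rw [hz]
    exact ht.cen
  have hoff : ∀ c ∈ C, ∀ i k, t i ≠ t k → ε i * c * ε k = 0 := by
    intro c hc i k hik
    have h1 : ε i * (c * z) * ε k = ε i * (z * c) * ε k := by rw [hcz c hc]
    have h2 : ε i * (c * z) * ε k = (t k : K) • (ε i * c * ε k) := by
      rw [← mul_assoc, mul_assoc, hze, mul_smul_comm]
    have h3 : ε i * (z * c) * ε k = (t i : K) • (ε i * c * ε k) := by
      rw [← mul_assoc, hez, smul_mul_assoc, smul_mul_assoc]
    rw [h2, h3] at h1
    have h4 : ((t k : K) - t i) • (ε i * c * ε k) = 0 := by rw [sub_smul, h1, sub_self]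
    rcases smul_eq_zero.mp h4 with h5 | h5
    · exfalso
      apply hik
      have h6 : (t k : K) = t i := sub_eq_zero.mp h5
      exact_mod_cast h6.symm
    · exact h5
  -- the family
  let A : Finset ℤ := Finset.univ.image t
  let f : Fin N → Fin A.card := fun i => A.equivFin ⟨t i, Finset.mem_image_of_mem t (Finset.mem_univ i)⟩
  let s : Fin A.card → ℤ := fun j => (A.equivFin.symm j : ℤ)
  have hsf : ∀ i, s (f i) = t i := fun i => by simp only [s, f, Equiv.symm_apply_apply]
  have hfne : ∀ i k, f i ≠ f k → t i ≠ t k := by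
    intro i k h h2
    apply h
    simp only [f, h2]
  let p : Fin A.card → Module.End K V := fun j => ∑ i with f i = j, ε i
  have hsum : ∑ j, (s j : K) • p j = z := by
    rw [hz, ← Finset.sum_fiberwise Finset.univ f]
    refine Finset.sum_congr rfl fun j _ => ?_
    show (s j : K) • ∑ i with f i = j, ε i = _
    rw [Finset.smul_sum]
    refine Finset.sum_congr rfl fun i hi => ?_
    rw [← (Finset.mem_filter.mp hi).2, hsf]
  have hmem : ∀ j, p j ∈ C := fun j => sum_mem fun i _ => hS.mem i
  -- products
  have hep : ∀ i j, ε i * p j = if f i = j then ε i else 0 := by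
    intro i j
    show ε i * ∑ k with f k = j, ε k = _
    rw [Finset.mul_sum]
    split_ifs with h
    · rw [Finset.sum_eq_single i]
      · exact hS.idem i
      · intro k _ hk
        exact hS.orth i k (Ne.symm hk)
      · intro h2
        exact absurd (Finset.mem_filter.mpr ⟨Finset.mem_univ i, h⟩) h2
    · refine Finset.sum_eq_zero fun k hk => hS.orth i k ?_
      rintro rfl
      exact h (Finset.mem_filter.mp hk).2
  have hpp : ∀ i j, p i * p j = if i = j then p i else 0 := by
    intro i j
    show (∑ k with f k = i, ε k) * p j = _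
    rw [Finset.sum_mul]
    have h1 : ∀ k ∈ Finset.univ.filter (fun k => f k = i), ε k * p j = if i = j then ε k else 0 := by
      intro k hk
      rw [hep, (Finset.mem_filter.mp hk).2]
    rw [Finset.sum_congr rfl h1]
    split_ifs
    · rfl
    · exact Finset.sum_const_zero
  have hcen1 : ∀ j, ∀ c ∈ C, c * p j = p j * (c * p j) := by
    intro j c hc
    have h1 : c * p j = ∑ i, ε i * (c * p j) := by rw [← Finset.sum_mul, hS.sum, one_mul]
    have h2 : p j * (c * p j) = ∑ i with f i = j, ε i * (c * p j) := by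
      show (∑ i with f i = j, ε i) * (c * p j) = _
      rw [Finset.sum_mul]
    rw [h2]
    refine h1.trans ?_
    rw [Finset.sum_filter]
    refine Finset.sum_congr rfl fun i _ => ?_
    split_ifs with h
    · rfl
    · show ε i * (c * ∑ k with f k = j, ε k) = 0
      rw [← mul_assoc, Finset.mul_sum]
      refine Finset.sum_eq_zero fun k hk => hoff c hc i k (hfne i k ?_)
      rw [(Finset.mem_filter.mp hk).2]
      exact h
  have hcen2 : ∀ j, ∀ c ∈ C, p j * c = p j * c * p j := by
    intro j c hc
    have h1 : p j * c = ∑ i, p j * c * ε i := by rw [← Finset.mul_sum, hS.sum, mul_one]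
    have h2 : p j * c * p j = ∑ i with f i = j, p j * c * ε i := by
      show p j * c * (∑ i with f i = j, ε i) = _
      rw [Finset.mul_sum]
    rw [h2]
    refine h1.trans ?_
    rw [Finset.sum_filter]
    refine Finset.sum_congr rfl fun i _ => ?_
    split_ifs with h
    · rfl
    · show (∑ k with f k = j, ε k) * c * ε i = 0
      rw [Finset.sum_mul, Finset.sum_mul]
      refine Finset.sum_eq_zero fun k hk => hoff c hc k i (hfne k i ?_)
      rw [(Finset.mem_filter.mp hk).2]
      exact fun h2 => h h2.symm
  refine ⟨A.card, p, s, ⟨hmem, fun j c hc => ?_, fun j => ?_, fun i j hij => ?_, ?_⟩, ?_, fun g hg hu => ?_⟩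
  · rw [hcen1 j c hc, hcen2 j c hc, mul_assoc]
  · rw [hpp, if_pos rfl]
  · rw [hpp, if_neg hij]
  · rw [hsum, hz]
    exact ht.skew
  · rw [hsum, hz]
    exact ht.ne
  · rw [detProd, detProd, ← Finset.prod_fiberwise Finset.univ f]
    refine Finset.prod_congr rfl fun j _ => ?_
    show LinearMap.det ((∑ i with f i = j, ε i) * g + (1 - ∑ i with f i = j, ε i)) ^ s j = _
    rw [det_sum hS hg, ← Finset.prod_zpow]
    refine Finset.prod_congr rfl fun i hi => ?_
    rw [← (Finset.mem_filter.mp hi).2, hsf]

end Pool.Agent.Lib.MP_640417_ag.Wn
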