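import Pool.Agent.Lib.MP_640417_ag.Wn.FamB
import Pool.Agent.Lib.MP_640417_ag.Dfr.AeFree

/-!
# MP_640417_ag, Wn, module Null (80 lines): a relation holds on a null set

Follow the proof of `ae_detFree` in `Dfr/AeFree.lean`, with `p := ε`, `s := t`: `γ ↦ detProd ε t (T γ)` is a homomorphism `R` (`bai_mul`, `bai_one`,
`comK_full`), `{γ | detProd ε t (T γ) ≠ 1}` is open by `bai_open`. If `R.ker` were open, `exists_cenRel` would give a Weil relation (each `T γ` is a unit, with
inverse `T γ⁻¹`, and commutes with `comK ρ` by `comK_full`). So `measure_closed` applies.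
-/

set_option autoImplicit false

namespace Pool.Agent.Lib.MP_640417_ag.Wn

open Module TensorProduct MeasureTheory Pool.Agent.Lib.MP_640417_ag
  Pool.Agent.Lib.MP_640417_ag.Frob
  Pool.Agent.Lib.MP_640417_ag.Four Pool.Agent.Lib.MP_640417_ag.Ty
  Pool.Agent.Lib.MP_640417_ag.Lef Pool.Agent.Lib.MP_640417_ag.Dfr

theorem null_of_goodT {F : Type} [NontriviallyNormedField F] [CharZero F] {V : Type}
    [AddCommGroup V] [Module F V] [FiniteDimensional F V] {Γ : Type} [Group Γ]
    [TopologicalSpace Γ] [IsTopologicalGroup Γ] [CompactSpace Γ] [MeasurableSpace Γ]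
    [BorelSpace Γ] (ν : Measure Γ) [ν.IsHaarMeasure] (ρ : H1Rep Γ F V)
    (hfull : ∀ c, CommF ρ c → ∀ γ, c * ρ.T γ = ρ.T γ * c) {N : ℕ} {st : Fin N → Fin N}
    {ε : Fin N → Module.End (AlgebraicClosure F) (AlgebraicClosure F ⊗[F] V)}
    (hS : Sys (ρ.form.baseChange (AlgebraicClosure F)) (comK ρ) N st ε)
    (hW : ¬ WeilRel ρ) {t : Fin N → ℤ}
    (ht : GoodT (ρ.form.baseChange (AlgebraicClosure F)) (comK ρ) ε t) :
    IsOpen {γ | detProd ε t ((ρ.T γ).baseChange (AlgebraicClosure F)) ≠ 1} ∧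
      ν {γ | detProd ε t ((ρ.T γ).baseChange (AlgebraicClosure F)) = 1} = 0 := by
  have hTm : ∀ γ δ, (ρ.T (γ * δ)).baseChange (AlgebraicClosure F) =
      (ρ.T γ).baseChange (AlgebraicClosure F) * (ρ.T δ).baseChange (AlgebraicClosure F) := by
    intro γ δ
    rw [map_mul, LinearMap.baseChange_mul]
  have hT1 : (ρ.T 1).baseChange (AlgebraicClosure F) = 1 := by
    rw [map_one]
    exact LinearMap.baseChange_id
  have hdm : ∀ i, ∀ γ δ : Γ,
      LinearMap.det (ε i * (ρ.T (γ * δ)).baseChange (AlgebraicClosure F) + (1 - ε i)) =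
      LinearMap.det (ε i * (ρ.T γ).baseChange (AlgebraicClosure F) + (1 - ε i)) *
      LinearMap.det (ε i * (ρ.T δ).baseChange (AlgebraicClosure F) + (1 - ε i)) := by
    intro i γ δ
    rw [hTm, bai_mul (hS.idem i) (comK_full ρ hfull (hS.mem i) γ)]
  have hd1 : ∀ i,
      LinearMap.det (ε i * (ρ.T 1).baseChange (AlgebraicClosure F) + (1 - ε i)) = 1 := by
    intro i
    rw [hT1]
    exact bai_one (ε i)
  have hd0 : ∀ i, ∀ γ : Γ,
      LinearMap.det (ε i * (ρ.T γ).baseChange (AlgebraicClosure F) + (1 - ε i)) ≠ 0 := by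
    intro i γ h
    have h1 := hdm i γ γ⁻¹
    rw [mul_inv_cancel, hd1, h, zero_mul] at h1
    exact one_ne_zero h1
  have hopen : IsOpen {γ | detProd ε t ((ρ.T γ).baseChange (AlgebraicClosure F)) ≠ 1} :=
    bai_open ρ ε t fun γ i => hd0 i γ
  refine ⟨hopen, ?_⟩
  let R : Γ →* AlgebraicClosure F :=
    { toFun := fun γ => detProd ε t ((ρ.T γ).baseChange (AlgebraicClosure F))
      map_one' := by
        rw [detProd]
        refine Finset.prod_eq_one fun j _ => ?_
        rw [hd1, one_zpow]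
      map_mul' := by
        intro γ δ
        rw [detProd, detProd, detProd, ← Finset.prod_mul_distrib]
        refine Finset.prod_congr rfl fun j _ => ?_
        rw [hdm, mul_zpow] }
  have hcl : IsClosed (R.ker : Set Γ) := by
    rw [← isOpen_compl_iff]
    exact hopen
  have hno : ¬ IsOpen (R.ker : Set Γ) := by
    intro ho
    obtain ⟨k, p, s, hcr, hne, hdet⟩ := exists_cenRel hS ht
    refine hW ⟨k, p, s, hcr, hne, ⟨R.ker, ho⟩, fun γ hγ => ?_⟩
    have hu : IsUnit ((ρ.T γ).baseChange (AlgebraicClosure F)) :=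
      ⟨⟨(ρ.T γ).baseChange (AlgebraicClosure F), (ρ.T γ⁻¹).baseChange (AlgebraicClosure F),
        by rw [← hTm, mul_inv_cancel, hT1], by rw [← hTm, inv_mul_cancel, hT1]⟩, rfl⟩
    rw [hdet _ (fun c hc => comK_full ρ hfull hc γ) hu]
    exact MonoidHom.mem_ker.mp hγ
  have h1 := measure_closed ν R.ker hcl hno
  refine measure_mono_null ?_ h1
  intro γ hγ
  exact MonoidHom.mem_ker.mpr hγ

end Pool.Agent.Lib.MP_640417_ag.Wn
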