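import Pool.Agent.Lib.MP_640417_ag.Wn.Defs
import Mathlib.RingTheory.DedekindDomain.AdicValuation
import Mathlib.NumberTheory.NumberField.Basic
import Mathlib.RingTheory.Ideal.Norm.AbsNorm

/-!
# MP_640417_ag, Wn, module Ram (150 lines): valuations of Weil numbers

`exp_p`: for a prime number `p` and a prime `P` of the ring of integers `𝓞 L`, the valuation of `p` is `exp (-k)` with
`k ≤ finrank ℚ L =: n`. Proof: `(p : 𝓞 L) ≠ 0`, so `P.intValuation p = exp (-k)` for the multiplicity `k` of `P` in the ideal `(p)`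
(`intValuation_if_neg`), and `P ^ k ∣ (p)` (`HeightOneSpectrum.intValuation_le_pow_iff_dvd`). Take absolute norms (`Ideal.absNorm`, multiplicative; `map_dvd`):
`N P ^ k ∣ N (p) = |Norm (p)| = p ^ n` (`Ideal.absNorm_span_singleton`, `Algebra.norm_algebraMap`; `finrank ℤ (𝓞 L) = finrank ℚ L`:
`RingOfIntegers.rank`). If `k = 0` there is nothing to prove. If `k > 0`, `N P ∣ p ^ n`, so `N P = p ^ f` (`Nat.dvd_prime_pow`), `f ≥ 1` since
`N P ≠ 1` (`Ideal.absNorm_eq_one_iff`, `P.isPrime.ne_top`), and `p ^ (f k) ∣ p ^ n` gives `k ≤ f k ≤ n` (`Nat.pow_dvd_pow_iff_le_right`).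

`exists_val`: `D` and `D'` are images of elements of `𝓞 L`; `P.valuation D ≤ 1`, `P.valuation D' ≤ 1` (`valuation_le_one`), and
`valuation D * valuation D' = valuation p ^ m = exp (-k m)` with `k ≤ n`. `D ≠ 0`, so `valuation D = exp (-a)` for some integer `a` (`valuation` is nonzero; use
`WithZero.exp`/`WithZero.log` or `WithZero.ne_zero_iff_exists`), `a ≥ 0` as it is `≤ 1`, and `exp (-a) ≥ exp (-a) * valuation D' = exp (-k m)`
gives `a ≤ k m ≤ n m`.
-/

set_option autoImplicit false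

namespace Pool.Agent.Lib.MP_640417_ag.Wn

open IsDedekindDomain NumberField

theorem exp_p {L : Type} [Field L] [NumberField L] {p : ℕ} (hp : p.Prime)
    (P : HeightOneSpectrum (𝓞 L)) :
    ∃ k : ℕ, k ≤ Module.finrank ℚ L ∧ P.valuation L (p : L) = WithZero.exp (-(k : ℤ)) := by
  have hp0 : ((p : ℕ) : 𝓞 L) ≠ 0 := by
    exact_mod_cast hp.ne_zero
  have e1 : P.valuation L (p : L) = P.intValuation ((p : ℕ) : 𝓞 L) := by
    have e2 : (p : L) = algebraMap (𝓞 L) L ((p : ℕ) : 𝓞 L) := (map_natCast _ p).symm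
    rw [e2]
    exact P.valuation_of_algebraMap _
  refine ⟨multiplicity P.asIdeal (Ideal.span {((p : ℕ) : 𝓞 L)}), ?_, ?_⟩
  · set k := multiplicity P.asIdeal (Ideal.span {((p : ℕ) : 𝓞 L)}) with hk
    rcases Nat.eq_zero_or_pos k with h0 | h0
    · rw [h0]
      exact Nat.zero_le _
    have h1 : P.asIdeal ^ k ∣ Ideal.span {((p : ℕ) : 𝓞 L)} := pow_multiplicity_dvd _ _
    have h2 : Ideal.absNorm (P.asIdeal) ^ k ∣ p ^ Module.finrank ℚ L := by
      have h3 := map_dvd Ideal.absNorm h1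
      rw [map_pow, Ideal.absNorm_span_natCast, RingOfIntegers.rank] at h3
      exact h3
    have h3 : Ideal.absNorm (P.asIdeal) ∣ p ^ Module.finrank ℚ L :=
      (dvd_pow_self _ h0.ne').trans h2
    obtain ⟨f, hf1, hf2⟩ := (Nat.dvd_prime_pow hp).1 h3
    have hf0 : f ≠ 0 := by
      intro h
      rw [h, pow_zero] at hf2
      exact P.isPrime.ne_top (Ideal.absNorm_eq_one_iff.1 hf2)
    rw [hf2, ← pow_mul] at h2
    have h4 : f * k ≤ Module.finrank ℚ L := (Nat.pow_dvd_pow_iff_le_right hp.one_lt).1 h2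
    have h5 : k ≤ f * k := Nat.le_mul_of_pos_left k (Nat.pos_of_ne_zero hf0)
    omega
  · rw [e1, HeightOneSpectrum.intValuation_eq_exp_neg_multiplicity _ hp0]

theorem exists_val {L : Type} [Field L] [NumberField L] {p m : ℕ} (hp : p.Prime) {D : L}
    (hD : WeilNum p m D) (P : HeightOneSpectrum (𝓞 L)) :
    ∃ a : ℕ, a ≤ Module.finrank ℚ L * m ∧ P.valuation L D = WithZero.exp (-(a : ℤ)) := by
  obtain ⟨D', hD', hDD⟩ := hD.quot
  obtain ⟨k, hk, hkv⟩ := exp_p (L := L) hp P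
  have hp0 : (p : L) ≠ 0 := by exact_mod_cast hp.ne_zero
  have hne : D * D' ≠ 0 := by
    rw [hDD]
    exact pow_ne_zero _ hp0
  have hle : ∀ x : L, IsIntegral ℤ x → P.valuation L x ≤ 1 := by
    intro x hx
    have h1 : x = algebraMap (𝓞 L) L ⟨x, hx⟩ := rfl
    rw [h1]
    exact P.valuation_le_one _
  have h1 := hle D hD.int
  have h2 := hle D' hD'
  have h3 : P.valuation L D * P.valuation L D' = WithZero.exp (-((k * m : ℕ) : ℤ)) := by
    rw [← map_mul, hDD, map_pow, hkv, ← WithZero.exp_nsmul]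
    congr 1
    rw [nsmul_eq_mul]
    push_cast
    ring
  have h4 : P.valuation L D ≠ 0 := (Valuation.ne_zero_iff _).2 (left_ne_zero_of_mul hne)
  have h5 : P.valuation L D' ≠ 0 := (Valuation.ne_zero_iff _).2 (right_ne_zero_of_mul hne)
  obtain ⟨a, ha⟩ : ∃ a : ℤ, P.valuation L D = WithZero.exp a :=
    ⟨WithZero.log (P.valuation L D), (WithZero.exp_log h4).symm⟩
  obtain ⟨b, hb⟩ : ∃ a : ℤ, P.valuation L D' = WithZero.exp a :=
    ⟨WithZero.log (P.valuation L D'), (WithZero.exp_log h5).symm⟩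
  rw [ha, ← WithZero.exp_zero, WithZero.exp_le_exp] at h1
  rw [hb, ← WithZero.exp_zero, WithZero.exp_le_exp] at h2
  rw [ha, hb, ← WithZero.exp_add, WithZero.exp_inj] at h3
  have h6 : -a ≤ ((k * m : ℕ) : ℤ) := by omega
  have h7 : k * m ≤ Module.finrank ℚ L * m := Nat.mul_le_mul_right m hk
  refine ⟨(-a).toNat, by omega, ?_⟩
  rw [ha, Int.toNat_of_nonneg (by omega), neg_neg]

end Pool.Agent.Lib.MP_640417_ag.Wn
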